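import Pool.Agent.W211.AF.Stm2

set_option autoImplicit false

namespace Pool.Agent.W33.AFFin

open Pool.Agent.Results.MP_11aa79_an.NotFactor
open Pool.Agent.Results.MP_11aa79_an.NotFactor.Main

section gen
variable {G : Type} [Group G]

lemma summable_pt {m S : G → ℂ} (hm : Summable fun g => ‖m g‖) (hS : Summable fun g => ‖S g‖)
    (u : G) : Summable fun h => ‖m h‖ * ‖S (h⁻¹ * u)‖ := by
  have h1 : Summable fun p : G × G => ‖m p.1‖ * ‖S (p.1⁻¹ * p.2)‖ := by
    have := (shear G).summable_iff.2 (summable_prod hm hS)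
    exact this
  have h2 : Summable fun p : G × G => ‖m p.2‖ * ‖S (p.2⁻¹ * p.1)‖ := by
    have := (Equiv.prodComm G G).summable_iff.2 h1
    exact this
  exact h2.prod_factor u

lemma norm_cv {m S : G → ℂ} (hm : Summable fun g => ‖m g‖) (hS : Summable fun g => ‖S g‖) :
    ∑' u, ‖cv m S u‖ ≤ (∑' g, ‖m g‖) * ∑' g, ‖S g‖ := by
  have hm' : Summable fun g => ‖((‖m g‖ : ℝ) : ℂ)‖ := by simpa using hm
  have hS' : Summable fun g => ‖((‖S g‖ : ℝ) : ℂ)‖ := by simpa using hS
  have hr : ∀ u, cv (fun g => ((‖m g‖ : ℝ) : ℂ)) (fun g => ((‖S g‖ : ℝ) : ℂ)) u =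
      ((∑' h, ‖m h‖ * ‖S (h⁻¹ * u)‖ : ℝ) : ℂ) := by
    intro u
    unfold cv
    rw [Complex.ofReal_tsum]
    refine tsum_congr fun h => ?_
    push_cast
    rfl
  have hnn : ∀ u, 0 ≤ ∑' h, ‖m h‖ * ‖S (h⁻¹ * u)‖ := fun u =>
    tsum_nonneg fun h => mul_nonneg (norm_nonneg _) (norm_nonneg _)
  have hsr : Summable fun u => ∑' h, ‖m h‖ * ‖S (h⁻¹ * u)‖ := by
    have h1 := summable_cv hm' hS'
    refine h1.congr fun u => ?_
    rw [hr u, Complex.norm_real, Real.norm_of_nonneg (hnn u)]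
  have hsum := tsum_cv hm' hS'
  simp_rw [hr] at hsum
  rw [← Complex.ofReal_tsum, ← Complex.ofReal_tsum, ← Complex.ofReal_tsum,
    ← Complex.ofReal_mul] at hsum
  have hsum' := Complex.ofReal_injective hsum
  rw [← hsum']
  refine (summable_cv hm hS).tsum_le_tsum (fun u => ?_) hsr
  have h5 : Summable fun h => ‖m h * S (h⁻¹ * u)‖ := by
    simpa only [norm_mul] using summable_pt hm hS u
  refine (norm_tsum_le_tsum_norm h5).trans (le_of_eq ?_)
  simp only [norm_mul]

lemma cv_diff {b c p q : G → ℂ} (hb : Summable fun g => ‖b g‖) (hc : Summable fun g => ‖c g‖)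
    (hp : Summable fun g => ‖p g‖) (hq : Summable fun g => ‖q g‖) (u : G) :
    cv p q u - cv b c u = cv (fun g => p g - b g) q u + cv b (fun g => q g - c g) u := by
  have s1 : Summable fun h => p h * q (h⁻¹ * u) :=
    Summable.of_norm (by simpa only [norm_mul] using summable_pt hp hq u)
  have s2 : Summable fun h => b h * c (h⁻¹ * u) :=
    Summable.of_norm (by simpa only [norm_mul] using summable_pt hb hc u)
  have s3 : Summable fun h => b h * q (h⁻¹ * u) :=
    Summable.of_norm (by simpa only [norm_mul] using summable_pt hb hq u)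
  have e1 : cv (fun g => p g - b g) q u = cv p q u - cv b q u := by
    unfold cv
    rw [← s1.tsum_sub s3]
    exact tsum_congr fun h => by ring
  have e2 : cv b (fun g => q g - c g) u = cv b q u - cv b c u := by
    unfold cv
    rw [← s3.tsum_sub s2]
    exact tsum_congr fun h => by ring
  rw [e1, e2]
  ring

lemma trunc (b : G → ℂ) (hb : Summable fun g => ‖b g‖) (hb0 : ∑' g, b g = 0) (η : ℝ)
    (hη : 0 < η) : ∃ p : G → ℂ, (Function.support p).Finite ∧ (Summable fun g => ‖p g‖) ∧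
      ∑' g, p g = 0 ∧ (Summable fun g => ‖p g - b g‖) ∧ ∑' g, ‖p g - b g‖ < η := by
  classical
  have hlim := hb.hasSum
  have hev := (hlim.eventually (lt_mem_nhds (show ∑' g, ‖b g‖ - η / 2 < ∑' g, ‖b g‖ by linarith)))
  obtain ⟨s, hs⟩ := hev.exists
  set S : ℂ := ∑ g ∈ s, b g with hS
  set b1 : G → ℂ := fun g => if g ∈ s then b g else 0 with hb1
  set d : G → ℂ := fun g => if g = 1 then S else 0 with hd
  have h1 : HasSum b1 S := by
    have h : HasSum b1 (∑ g ∈ s, b1 g) := hasSum_sum_of_ne_finset_zero fun g hg => if_neg hg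
    have e : ∑ g ∈ s, b1 g = S := Finset.sum_congr rfl fun g hg => if_pos hg
    rwa [e] at h
  have hdS : HasSum d S := by
    have h : HasSum (fun g : G => if g = 1 then S else 0) S := hasSum_ite_eq (1 : G) S
    exact h
  have hn1 : HasSum (fun g => ‖b1 g‖) (∑ g ∈ s, ‖b g‖) := by
    have h : HasSum (fun g => ‖b1 g‖) (∑ g ∈ s, ‖b1 g‖) :=
      hasSum_sum_of_ne_finset_zero fun g hg => by
        rw [hb1]
        simp [hg]
    have e : ∑ g ∈ s, ‖b1 g‖ = ∑ g ∈ s, ‖b g‖ :=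
      Finset.sum_congr rfl fun g hg => by rw [hb1]; simp [hg]
    rwa [e] at h
  have hnd : HasSum (fun g => ‖d g‖) ‖S‖ := by
    have h : HasSum (fun g : G => if g = 1 then ‖S‖ else 0) ‖S‖ := hasSum_ite_eq (1 : G) ‖S‖
    have e : (fun g : G => ‖d g‖) = fun g : G => if g = 1 then ‖S‖ else 0 := by
      funext g
      rw [hd]
      by_cases hg : g = 1 <;> simp [hg]
    rw [e]
    exact h
  have hn2 : HasSum (fun g => ‖b g - b1 g‖) (∑' g, ‖b g‖ - ∑ g ∈ s, ‖b g‖) := by
    have h := hb.hasSum.sub hn1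
    have e : (fun g => ‖b g - b1 g‖) = fun g => ‖b g‖ - ‖b1 g‖ := by
      funext g
      rw [hb1]
      by_cases hg : g ∈ s <;> simp [hg]
    rw [e]
    exact h
  have hSle : ‖S‖ ≤ ∑' g, ‖b g‖ - ∑ g ∈ s, ‖b g‖ := by
    have hbs : HasSum b 0 := by
      have h := (Summable.of_norm hb).hasSum
      rwa [hb0] at h
    have h := hbs.sub h1
    rw [zero_sub] at h
    have h3 := norm_tsum_le_tsum_norm hn2.summable
    rw [h.tsum_eq, hn2.tsum_eq, norm_neg] at h3
    exact h3
  have hsm : Summable fun g => ‖(b1 g - d g) - b g‖ := by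
    refine Summable.of_nonneg_of_le (fun _ => norm_nonneg _) (fun g => ?_)
      (hn2.summable.add hnd.summable)
    have e : b1 g - d g - b g = -(b g - b1 g) - d g := by ring
    rw [e]
    refine (norm_sub_le _ _).trans ?_
    rw [norm_neg]
  refine ⟨fun g => b1 g - d g, ?_, ?_, ?_, hsm, ?_⟩
  · refine (s.finite_toSet.union (Set.finite_singleton (1 : G))).subset ?_
    intro g hg
    by_contra hcon
    rw [Set.mem_union, not_or, Finset.mem_coe, Set.mem_singleton_iff] at hcon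
    apply hg
    change (if g ∈ s then b g else 0) - (if g = 1 then S else 0) = 0
    rw [if_neg hcon.1, if_neg hcon.2, sub_zero]
  · refine Summable.of_nonneg_of_le (fun _ => norm_nonneg _) (fun g => norm_sub_le _ _)
      (hn1.summable.add hnd.summable)
  · have h := (h1.sub hdS).tsum_eq
    rwa [sub_self] at h
  · have hle : ∑' g, ‖(b1 g - d g) - b g‖ ≤ ∑' g, (‖b g - b1 g‖ + ‖d g‖) := by
      refine hsm.tsum_le_tsum (fun g => ?_) (hn2.summable.add hnd.summable)
      have e : b1 g - d g - b g = -(b g - b1 g) - d g := by ring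
      rw [e]
      refine (norm_sub_le _ _).trans ?_
      rw [norm_neg]
    rw [(hn2.add hnd).tsum_eq] at hle
    linarith

end gen

theorem main : Pool.Agent.W211.AF.S_FIN := by
  intro z b c hz hb hc ε hε
  set δ : ℝ := ε - ∑' g, ‖convProd b c g - z g‖ with hδ
  have hδ0 : 0 < δ := by rw [hδ]; linarith
  have hBn : 0 ≤ ∑' g, ‖b g‖ := tsum_nonneg fun _ => norm_nonneg _
  have hCn : 0 ≤ ∑' g, ‖c g‖ := tsum_nonneg fun _ => norm_nonneg _
  set D : ℝ := ∑' g, ‖b g‖ + ∑' g, ‖c g‖ + 2 with hD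
  have hD0 : 0 < D := by rw [hD]; linarith
  set η : ℝ := min 1 (δ / D) with hη
  have hη0 : 0 < η := lt_min one_pos (div_pos hδ0 hD0)
  obtain ⟨p, hpf, hps, hp0, hpbs, hpb⟩ := trunc b hb.1 hb.2 η hη0
  obtain ⟨q, hqf, hqs, hq0, hqcs, hqc⟩ := trunc c hc.1 hc.2 η hη0
  refine ⟨p, q, hpf, hqf, ⟨hps, hp0⟩, ⟨hqs, hq0⟩, ?_⟩
  have hqn : ∑' g, ‖q g‖ ≤ ∑' g, ‖c g‖ + 1 := by
    have h1 : ∑' g, ‖q g‖ ≤ ∑' g, (‖q g - c g‖ + ‖c g‖) := by
      refine hqs.tsum_le_tsum (fun g => ?_) (hqcs.add hc.1)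
      have := norm_add_le (q g - c g) (c g)
      rwa [sub_add_cancel] at this
    rw [hqcs.tsum_add hc.1] at h1
    have h2 : η ≤ 1 := min_le_left _ _
    linarith
  have s1 := summable_cv hps hqs
  have s2 := summable_cv hb.1 hc.1
  have s3 := summable_cv hpbs hqs
  have s4 := summable_cv hb.1 hqcs
  have s5 : Summable fun g => ‖cv b c g - z g‖ :=
    Summable.of_nonneg_of_le (fun _ => norm_nonneg _) (fun g => norm_sub_le _ _) (s2.add hz)
  have s6 : Summable fun g => ‖cv p q g - z g‖ :=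
    Summable.of_nonneg_of_le (fun _ => norm_nonneg _) (fun g => norm_sub_le _ _) (s1.add hz)
  have hle : ∑' g, ‖cv p q g - z g‖ ≤
      ∑' g, ((‖cv (fun g => p g - b g) q g‖ + ‖cv b (fun g => q g - c g) g‖) +
        ‖cv b c g - z g‖) := by
    refine s6.tsum_le_tsum (fun g => ?_) ((s3.add s4).add s5)
    have e : cv p q g - z g = (cv (fun g => p g - b g) q g + cv b (fun g => q g - c g) g) +
        (cv b c g - z g) := by
      rw [← cv_diff hb.1 hc.1 hps hqs]
      ring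
    rw [e]
    exact (norm_add_le _ _).trans (add_le_add (norm_add_le _ _) le_rfl)
  rw [(s3.add s4).tsum_add s5, s3.tsum_add s4] at hle
  have h3 := norm_cv hpbs hqs
  have h4 := norm_cv hb.1 hqcs
  have h5 : (∑' g, ‖p g - b g‖) * ∑' g, ‖q g‖ ≤ η * (∑' g, ‖c g‖ + 1) :=
    mul_le_mul hpb.le hqn (tsum_nonneg fun _ => norm_nonneg _) hη0.le
  have h6 : (∑' g, ‖b g‖) * ∑' g, ‖q g - c g‖ ≤ (∑' g, ‖b g‖) * η :=
    mul_le_mul_of_nonneg_left hqc.le hBn
  have h7 : η * D ≤ δ := by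
    have : η ≤ δ / D := min_le_right _ _
    calc η * D ≤ δ / D * D := mul_le_mul_of_nonneg_right this hD0.le
      _ = δ := div_mul_cancel₀ _ hD0.ne'
  have h8 : η * (∑' g, ‖c g‖ + 1) + (∑' g, ‖b g‖) * η < δ := by
    have e : η * (∑' g, ‖c g‖ + 1) + (∑' g, ‖b g‖) * η = η * D - η := by
      rw [hD]; ring
    rw [e]
    linarith
  have hfin : ∑' g, ‖cv p q g - z g‖ < δ + ∑' g, ‖cv b c g - z g‖ := by linarith
  have hcp : ∀ m S : FreeGroup (Fin 2) → ℂ, convProd m S = cv m S := fun _ _ => rfl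
  rw [hcp] at hδ ⊢
  rw [hδ] at hfin
  linarith

end Pool.Agent.W33.AFFin
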